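import Pool.Agent.Lib.THZ.Inj
import Pool.Agent.Lib.CX2.Cls
import Pool.Agent.Lib.PTX.YCont

/-!
# Tree hierarchies (MP_16fe43_al): extensions by groups of geometric dimension at most two

`edg_ext`: groups with a homomorphism to a group of geometric dimension at most two the kernel of which is locally
virtually stably regular with Noetherian group rings are in the class `Edg`; `edg_polyZ`: poly-`ℤ` kernels;
`edg_gd2`: the groups of geometric dimension at most two.
-/

set_option autoImplicit false

namespace Pool.Agent.Lib.THZ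

open MulAction (stabilizer)
open Pool.Agent.Lib.GD2 (GeomDimLETwo)

/-- extensions by groups of geometric dimension at most two -/
theorem edg_ext {D Q : Type} [Group D] [Group Q] (π : D →* Q) (hQ : GeomDimLETwo Q)
    (hr : LVR π.ker) (hn : StNoeth π.ker) : Edg D := by
  obtain ⟨V, E, F, iV, iE, iF, X, hD, hX, hV, hE, hF⟩ := CX2.exists_cx π hQ
  refine Edg.cx D V E F X hD hX (fun v => ?_) (fun e => ?_) fun f => ?_
  · rw [hV v]
    exact Edg.reg _ hr
  · rw [hE e]
    exact hr
  · rw [hF f]
    exact ⟨hr, hn⟩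

/-- poly-`ℤ` kernels -/
theorem edg_polyZ {D Q : Type} [Group D] [Group Q] (π : D →* Q) (hQ : GeomDimLETwo Q)
    (h : CX2.Cl.PolyZ π.ker) : Edg D := by
  obtain ⟨h1, h2⟩ := CX2.stNoeth_polyZ h
  exact edg_ext π hQ ((lvr_iff _).2 (PTX.lvr_of_stReg ((CX2.stReg_iff _).1 h1))) h2

/-- groups of geometric dimension at most two -/
theorem edg_gd2 {D : Type} [Group D] (h : GeomDimLETwo D) : Edg D := by
  refine edg_polyZ (MonoidHom.id D) h ?_
  refine CX2.Cl.PolyZ.triv _ ?_
  rw [MonoidHom.ker_id]
  infer_instance

end Pool.Agent.Lib.THZ
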