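import Pool.Agent.Lib.THZ.Edge
import Pool.Agent.Lib.MagH.VXc
import Pool.Agent.Lib.SLT.RSt

/-!
# Tree hierarchies (MP_16fe43_al): subgroups of the edge groups

`Edg.of_injective`: the class `Edg` is closed under subgroups.
-/

set_option autoImplicit false

namespace Pool.Agent.Lib.THZ

open Pool.Agent.Lib.SerE (ZG Cd PdLT)
open Pool.Agent.Lib.PTX (finiteIndex_comap')
open MulAction (stabilizer)

/-- groups of finite cohomological dimension -/
theorem cd_finCd {M : Type} [Group M] {c : ℕ} (h : Cd M c) : FinCd M := by
  have hP : Module.Projective ℤ (Representation.trivial ℤ M ℤ).asModule :=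
    Module.Projective.of_equiv
      ((Representation.trivial ℤ M ℤ).asModuleEquiv.toAddEquiv.symm.toIntLinearEquiv)
  exact ⟨c, h M (MonoidHom.id M) (fun _ _ h => h) _ hP⟩

theorem FinCd.of_injective {L M : Type} [Group L] [Group M] (h : FinCd M) (f : L →* M)
    (hf : Function.Injective f) : FinCd L := by
  obtain ⟨c, hc⟩ := finCd_cd h
  exact cd_finCd (hc.of_injective f hf)

/-- **subgroups** -/
theorem Edg.of_injective {D : Type} [Group D] (h : Edg D) : ∀ {L : Type} [Group L] (f : L →* D),
    Function.Injective f → Edg L := by
  induction h with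
  | cx D V E F X hD hX hv he hf ih =>
    intro L _ f hinj
    let _ : MulAction L V := MulAction.compHom V f
    let _ : MulAction L E := MulAction.compHom E f
    let _ : MulAction L F := MulAction.compHom F f
    refine Edg.cx L V E F X ⟨fun g => hD.o (f g), fun g => hD.t (f g), fun g => hD.a (f g),
      fun g => hD.b (f g), fun g => hD.c (f g)⟩ hX (fun v => ?_) (fun e => ?_) (fun t => ?_)
    · let g : stabilizer L v →* stabilizer D v :=
        { toFun := fun x => ⟨f x.1, x.2⟩
          map_one' := Subtype.ext (map_one f)
          map_mul' := fun a b => Subtype.ext (map_mul f a.1 b.1) }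
      refine ih v g fun a b hab => ?_
      exact Subtype.ext (hinj (congrArg Subtype.val hab))
    · let g : stabilizer L e →* stabilizer D e :=
        { toFun := fun x => ⟨f x.1, x.2⟩
          map_one' := Subtype.ext (map_one f)
          map_mul' := fun a b => Subtype.ext (map_mul f a.1 b.1) }
      refine (lvr_iff _).2 (MagH.lvr_inj g (fun a b hab => ?_) ((lvr_iff _).1 (he e)))
      exact Subtype.ext (hinj (congrArg Subtype.val hab))
    · let g : stabilizer L t →* stabilizer D t :=
        { toFun := fun x => ⟨f x.1, x.2⟩
          map_one' := Subtype.ext (map_one f)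
          map_mul' := fun a b => Subtype.ext (map_mul f a.1 b.1) }
      have hg : Function.Injective g := fun a b hab =>
        Subtype.ext (hinj (congrArg Subtype.val hab))
      exact ⟨(lvr_iff _).2 (MagH.lvr_inj g hg ((lvr_iff _).1 (hf t).1)),
        SLT.NReg.of_injective g hg (hf t).2⟩
  | reg D h =>
    exact fun f hf => Edg.reg _ ((lvr_iff _).2 (MagH.lvr_inj f hf ((lvr_iff _).1 h)))
  | tree D X T hT hv he ih =>
    intro L _ f hf
    let _ : MulAction L X := MulAction.compHom X f
    refine Edg.tree L X T ⟨hT.tree, fun g => hT.adj (f g), fun g => hT.noinv (f g)⟩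
      (fun u => ?_) (fun u v huv => ?_)
    · let g : stabilizer L u →* stabilizer D u :=
        { toFun := fun x => ⟨f x.1, x.2⟩
          map_one' := Subtype.ext (map_one f)
          map_mul' := fun a b => Subtype.ext (map_mul f a.1 b.1) }
      refine ih u g fun a b hab => ?_
      exact Subtype.ext (hf (congrArg Subtype.val hab))
    · let g : seg L u v →* seg D u v :=
        { toFun := fun x => ⟨f x.1, x.2⟩
          map_one' := Subtype.ext (map_one f)
          map_mul' := fun a b => Subtype.ext (map_mul f a.1 b.1) }
      refine (lvr_iff _).2 (MagH.lvr_inj g (fun a b hab => ?_) ((lvr_iff _).1 (he u v huv)))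
      exact Subtype.ext (hf (congrArg Subtype.val hab))
  | fin D M hM hc h ih =>
    intro L _ f hf
    have h1 : (M.comap f).FiniteIndex := finiteIndex_comap' f M
    have hg : Function.Injective (f.subgroupComap M) := fun a b hab =>
      Subtype.ext (hf (congrArg (fun z : M => (z : D)) hab))
    exact Edg.fin L (M.comap f) h1 (hc.of_injective _ hg) (ih _ hg)
  | loc D h ih =>
    intro L _ f hf
    refine Edg.loc L fun H hH => ?_
    have fgH : Group.FG H := (Group.fg_iff_subgroup_fg H).2 hH
    let e := H.equivMapOfInjective f hf
    have h1 : (H.map f).FG := (Group.fg_iff_subgroup_fg _).1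
      (Group.fg_of_surjective (f := e.toMonoidHom) e.surjective)
    exact ih (H.map f) h1 e.toMonoidHom e.injective

end Pool.Agent.Lib.THZ
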