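import Pool.Agent.Lib.THZ.Inj
import Pool.Agent.Lib.THZ.Main

/-!
# Tree hierarchies (MP_16fe43_al): trees such that the stabilizers of long segments are edge groups

`cls_seg`: the remark in the documentation of the constructor `Cls.tree`.
-/

set_option autoImplicit false

namespace Pool.Agent.Lib.THZ

open Pool.Agent.Lib.MP_16fe43_al (TAct exists_between exists_mem_axis stab_between
  smul_mem_axis dist_pow_axis)
open MulAction (stabilizer)

variable {G : Type} [Group G] {V : Type} [MulAction G V] {T : SimpleGraph V}

private theorem edg_of_long (hT : TAct G T) {n : ℕ}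
    (hn : ∀ a b : V, T.dist a b = n → Edg (seg G a b))
    {D : Subgroup G} {a b : V} (hD : D ≤ seg G a b)
    (hab : n ≤ T.dist a b) : Edg D := by
  obtain ⟨c, hc, hcb⟩ := exists_between hT.tree a b n hab
  have h1 : D ≤ seg G a c := le_inf (hD.trans inf_le_left) (hD.trans (stab_between hT hcb))
  exact (hn a c hc).of_injective (Subgroup.inclusion h1) (Subgroup.inclusion_injective h1)

/-- trees such that the stabilizers of the vertices are in the class and, for some `n`, the pointwise stabilizers of
all segments of length `n` are edge groups -/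
theorem cls_seg (hT : TreeAct G T) (hv : ∀ v : V, Cls (stabilizer G v)) (n : ℕ)
    (hn : ∀ a b : V, T.dist a b = n → Edg (seg G a b)) : Cls G := by
  refine Cls.tree G V T hT hv ?_ ?_
  · intro u v huv
    refine ⟨n, fun a b ha hb hab => ?_⟩
    by_contra hcon
    push Not at hcon
    obtain ⟨hk, hcon⟩ := hcon
    have key : ∀ k ≤ n, k + 1 ≤ T.dist (a k) (b k) := by
      intro k hk
      induction k with
      | zero =>
        rw [ha, hb]
        exact le_of_eq (SimpleGraph.dist_eq_one_iff_adj.2 huv).symm
      | succ k ih =>
        have h1 := ih (by omega)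
        have h2 := hab k
        have h3 := hcon k (by omega)
        by_contra h4
        have h5 : T.dist (a (k + 1)) (a k) = 0 := by omega
        have h6 : T.dist (b k) (b (k + 1)) = 0 := by omega
        have h7 := (hT.tree.connected.dist_eq_zero_iff).1 h5
        have h8 := (hT.tree.connected.dist_eq_zero_iff).1 h6
        rw [h7, ← h8] at h3
        exact h3 rfl
    exact hk n le_rfl (edg_of_long hT.tAct hn le_rfl (by have := key n le_rfl; omega))
  · intro g hg hR
    exfalso
    obtain ⟨v, hv⟩ := exists_mem_axis hT.tAct hg
    apply hR
    have hpos : T.dist v (g • v) ≠ 0 := fun h =>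
      hg v ((hT.tree.connected.dist_eq_zero_iff).1 h).symm
    refine edg_of_long (n := n) (a := v) (b := g ^ (n + 1) • v) hT.tAct hn ?_ ?_
    · intro x hx
      have hpow : ∀ k : ℕ, g ^ k • v ∈ MP_16fe43_al.axis T g := by
        intro k
        induction k with
        | zero => simpa using hv
        | succ k ih =>
          rw [pow_succ', mul_smul]
          exact smul_mem_axis hT.tAct ih
      rw [axisStab_eq] at hx
      exact ⟨hx v hv, hx _ (hpow (n + 1))⟩
    · rw [dist_pow_axis hT.tAct hv (hg v) n]
      calc n ≤ (n + 1) * 1 := by omega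
        _ ≤ (n + 1) * T.dist v (g • v) := Nat.mul_le_mul_left _ (Nat.pos_of_ne_zero hpos)

/-- trees such that the stabilizers of the vertices are in the class and the stabilizers of the edges are edge
groups -/
theorem cls_edg (hT : TreeAct G T) (hv : ∀ v : V, Cls (stabilizer G v))
    (hn : ∀ a b : V, T.Adj a b → Edg (seg G a b)) : Cls G :=
  cls_seg hT hv 1 fun a b hab => hn a b (SimpleGraph.dist_eq_one_iff_adj.1 hab)

end Pool.Agent.Lib.THZ
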